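import Pool.Agent.K7.H74.AF.Stm

/-! # Project AF, jobs SALL and TALL -/

set_option autoImplicit false

open MeasureTheory Finset

namespace Pool.Agent.K7.H61.AF

open Pool.Agent.K7.H74.AF

theorem meas_SS (hM : StMeas) (k t i : ℕ) (δ : ℝ) : MeasurableSet {ξ : Fin t → ℝ | SS k t i δ ξ} := by
  simp only [SS, Set.setOf_exists, Set.setOf_forall]
  refine MeasurableSet.iUnion fun C => MeasurableSet.iInter fun b => MeasurableSet.iInter fun _ =>
    MeasurableSet.iInter fun J => MeasurableSet.iInter fun l => MeasurableSet.iInter fun _ =>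
    MeasurableSet.iInter fun _ => ?_
  exact hM.2.2.2.2.1 k t b l _

theorem meas_TT (hM : StMeas) (k j : ℕ) (δ ε η : ℝ) :
    MeasurableSet {ξ : Fin (k + j) → ℝ | TT k j δ ε η ξ} := by
  simp only [TT, Set.setOf_exists, Set.setOf_forall]
  refine MeasurableSet.iUnion fun C => MeasurableSet.iInter fun b => MeasurableSet.iInter fun _ =>
    MeasurableSet.iInter fun J => MeasurableSet.iInter fun l => MeasurableSet.iInter fun _ =>
    MeasurableSet.iInter fun _ => ?_
  exact hM.2.2.2.2.2 k (k + j) b η l _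

theorem sall (_hSplit : StSplit) (hM : StMeas) (hAe : StAe) (hPle : StPle) (hB : StSbase)
    (hSc : StScale) (hSt : StSstep) : StS := by
  intro k t
  induction t with
  | zero =>
    intro i δ hk hδ _
    exact Filter.Eventually.of_forall fun ξ => (hB k i δ hk hδ).2 ξ
  | succ t ih =>
    intro i δ' hk hδ' hδ1
    cases i with
    | zero => exact Filter.Eventually.of_forall fun ξ => (hB k 0 δ' hk hδ').1 (t + 1) ξ
    | succ i =>
      obtain ⟨δ, hδ, hδl, hstep⟩ := hSt k t i δ' hk hδ' hδ1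
      refine hAe.1 t (fun ξ => SS k (t + 1) (i + 1) δ' ξ) (meas_SS hM k (t + 1) (i + 1) δ') ?_
      filter_upwards [ih i δ hk hδ hδl, ih (i + 1) δ hk hδ hδl] with ξ h1 h2
      filter_upwards [hPle k t δ 1 hk hδ le_rfl ξ, ae_restrict_mem measurableSet_Ioc] with β h3 h4
      exact hSc k (t + 1) (i + 1) δ' hk hδ' hδ1 _ (hstep ξ β h4.1 h4.2 h1 h2 h3.1)

theorem tall (hTb : StTbase) (hTs : StTstep) (hS : StS) (hPle : StPle) (hAe : StAe)
    (hM : StMeas) : StT := by
  intro k j ε hk hj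
  induction j, hj using Nat.le_induction generalizing ε with
  | base =>
    intro hε
    exact ⟨1, one_pos, fun η h1 h2 => hTb k ε η hk hε h1 h2⟩
  | succ j hj ih =>
    intro hε'
    obtain ⟨ε0, δs, hε0, hδs, hδs1, h⟩ := hTs k j ε hk hj hε'
    obtain ⟨δ, hδ, hT⟩ := ih ε0 hε0
    obtain ⟨δ', hδ', h'⟩ := h δ hδ
    refine ⟨δ', hδ', fun η h1 h2 => ?_⟩
    refine hAe.1 (k + j) (fun ξ => TT k (j + 1) δ' ε η ξ) (meas_TT hM k (j + 1) δ' ε η) ?_
    filter_upwards [hT η h1 h2, hS k (k + j) (j + 1) δs hk hδs hδs1] with ξ h3 h4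
    filter_upwards [hPle k (k + j) δs η hk hδs h2 ξ, ae_restrict_mem measurableSet_Ioc] with β h5 h6
    exact h' η ξ β h1 h2 h6.1 h6.2 h3 h4 h5.2

end Pool.Agent.K7.H61.AF
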